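import Pool.Agent.P.MP_e9dd47_gt.Final

namespace Pool.Agent.Results.MP_e9dd47_gt.Disproof

open Pool.Agent.P.MP_e9dd47_gt

theorem result : ∃ (n : ℕ) (P : Set (Fin n → ℝ)), IsFakeSurface P ∧
    Collapsible (P ×ˢ Set.Icc (0 : ℝ) 1) ∧ PuncturedRP3Embeds (P ×ˢ Set.Icc (0 : ℝ) 1) :=
  ⟨20, _, fake_KK, collapsible_KK, embeds_KK⟩

end Pool.Agent.Results.MP_e9dd47_gt.Disproof
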